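import Pool.Agent.Helper83.TW.Goals2

/-!
# Analytic inverse and implicit function theorems on the line
-/

set_option autoImplicit false

open Set Filter Topology

namespace Pool.Agent.Helper83.TW

theorem invAn : GInvAn := by
  intro f hf hd hper
  have hmono : StrictMono f := strictMono_of_deriv_pos hd
  have hcont : Continuous f := by
    rw [continuous_iff_continuousAt]
    exact fun x => (hf x (mem_univ x)).continuousAt
  have hnat : ∀ (n : ℕ) (x : ℝ), f (x + n) = f x + n := by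
    intro n
    induction n with
    | zero => intro x; simp
    | succ n ih =>
      intro x
      have : x + ((n + 1 : ℕ) : ℝ) = (x + n) + 1 := by push_cast; ring
      rw [this, hper, ih]
      push_cast
      ring
  have htop : Tendsto f atTop atTop := by
    refine tendsto_atTop.2 fun b => ?_
    obtain ⟨n, hn⟩ := exists_nat_ge (b - f 0)
    filter_upwards [eventually_ge_atTop (n : ℝ)] with x hx
    have h1 := hmono.monotone hx
    have h2 := hnat n 0
    rw [zero_add] at h2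
    linarith
  have hbot : Tendsto f atBot atBot := by
    refine tendsto_atBot.2 fun b => ?_
    obtain ⟨n, hn⟩ := exists_nat_ge (f 0 - b)
    filter_upwards [eventually_le_atBot (-(n : ℝ))] with x hx
    have h1 := hmono.monotone hx
    have h2 := hnat n (-(n : ℝ))
    rw [neg_add_cancel] at h2
    linarith
  have hsurj : Function.Surjective f := hcont.surjective htop hbot
  let e : ℝ ≃o ℝ := StrictMono.orderIsoOfSurjective f hmono hsurj
  have hefx : ∀ x, e x = f x := fun x => rfl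
  have hgf : ∀ x, e.symm (f x) = x := fun x => by rw [← hefx]; exact e.symm_apply_apply x
  have hfg : ∀ y, f (e.symm y) = y := fun y => by rw [← hefx]; exact e.apply_symm_apply y
  refine ⟨fun y => e.symm y, ?_, hgf, hfg, hmono, e.symm.strictMono, ?_⟩
  · intro y _
    have hx := hf (e.symm y) (mem_univ _)
    have hne : deriv f (e.symm y) ≠ 0 := (hd _).ne'
    have h1 := hx.analyticAt_localInverse hne
    rw [hfg] at h1
    refine h1.congr ?_
    have h2 := (hx.hasStrictDerivAt.hasStrictFDerivAt_equiv hne).localInverse_unique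
      (g := fun y => e.symm y) (Eventually.of_forall hgf)
    rw [hfg] at h2
    filter_upwards [h2] with z hz
    exact hz.symm
  · intro y
    apply hmono.injective
    show f (e.symm (y + 1)) = f (e.symm y + 1)
    rw [hfg, hper, hfg]

theorem impAn : GImp := by
  intro D u hD hu h0 hne x₀ _
  set p₀ : ℝ × ℝ := (x₀, u x₀) with hp₀
  have hDa : AnalyticAt ℝ D p₀ := hD p₀ (mem_univ _)
  set D' : ℝ × ℝ →L[ℝ] ℝ := fderiv ℝ D p₀ with hD'
  have hDd : HasStrictFDerivAt D D' p₀ := hDa.hasStrictFDerivAt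
  have hb : deriv (fun t => D (x₀, t)) (u x₀) = D' (0, 1) := by
    have h1 : HasDerivAt (fun t : ℝ => ((x₀, t) : ℝ × ℝ)) ((0 : ℝ), (1 : ℝ)) (u x₀) :=
      (hasDerivAt_const _ _).prodMk (hasDerivAt_id _)
    exact (hDd.hasFDerivAt.comp_hasDerivAt (u x₀) h1).deriv
  have hb0 : D' (0, 1) ≠ 0 := by rw [← hb]; exact hne x₀
  let T : ℝ × ℝ → ℝ × ℝ := fun p => (p.1, D p)
  let i : (ℝ × ℝ) ≃L[ℝ] (ℝ × ℝ) :=
    (ContinuousLinearEquiv.refl ℝ ℝ).skewProd (ContinuousLinearEquiv.unitsEquivAut ℝ (.mk0 _ hb0))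
      (D'.comp (ContinuousLinearMap.inl ℝ ℝ ℝ))
  have hi : (i : ℝ × ℝ →L[ℝ] ℝ × ℝ) = (ContinuousLinearMap.fst ℝ ℝ ℝ).prod D' := by
    ext
    · simp [i]
    · simp [i]
    · simp [i]
    · have h00 : D' ((0 : ℝ), (0 : ℝ)) = 0 := D'.map_zero
      simp [i, h00]
  have hTd : HasStrictFDerivAt T (i : ℝ × ℝ →L[ℝ] ℝ × ℝ) p₀ := by
    rw [hi]
    exact (ContinuousLinearMap.fst ℝ ℝ ℝ).hasStrictFDerivAt.prodMk hDd
  have hTa : AnalyticAt ℝ T p₀ := analyticAt_fst.prod hDa
  let R : OpenPartialHomeomorph (ℝ × ℝ) (ℝ × ℝ) := hTd.toOpenPartialHomeomorph T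
  have hR : p₀ ∈ R.source := HasStrictFDerivAt.mem_toOpenPartialHomeomorph_source _
  have hSa : AnalyticAt ℝ R.symm (T p₀) := by
    obtain ⟨p, hp⟩ := hTa
    have hp1 : p 1 = (continuousMultilinearCurryFin1 ℝ (ℝ × ℝ) (ℝ × ℝ)).symm i := by
      rw [← hp.hasFDerivAt.unique hTd.hasFDerivAt]
      exact ((continuousMultilinearCurryFin1 ℝ (ℝ × ℝ) (ℝ × ℝ)).symm_apply_apply (p 1)).symm
    exact (R.hasFPowerSeriesAt_symm hR hp hp1).analyticAt
  have hT0 : T p₀ = (x₀, 0) := by
    show (x₀, D p₀) = _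
    rw [hp₀, h0]
  rw [hT0] at hSa
  have hcomp : AnalyticAt ℝ (fun x : ℝ => (R.symm (x, 0)).2) x₀ := by
    have h1 : AnalyticAt ℝ (fun x : ℝ => ((x, 0) : ℝ × ℝ)) x₀ := analyticAt_id.prod analyticAt_const
    have h2 : AnalyticAt ℝ (R.symm ∘ fun x : ℝ => ((x, 0) : ℝ × ℝ)) x₀ :=
      AnalyticAt.comp (g := R.symm) (f := fun x : ℝ => ((x, 0) : ℝ × ℝ)) hSa h1
    exact analyticAt_snd.comp h2
  refine hcomp.congr ?_
  have hc : ContinuousAt (fun x => ((x, u x) : ℝ × ℝ)) x₀ :=
    (continuous_id.prodMk hu).continuousAt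
  have hmem : ∀ᶠ x in 𝓝 x₀, ((x, u x) : ℝ × ℝ) ∈ R.source :=
    hc.eventually (R.open_source.mem_nhds hR)
  filter_upwards [hmem] with x hx
  have h1 : R.symm (T (x, u x)) = (x, u x) := R.left_inv hx
  have h2 : T (x, u x) = (x, 0) := by
    show (x, D (x, u x)) = _
    rw [h0]
  rw [h2] at h1
  rw [h1]

end Pool.Agent.Helper83.TW
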